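import Pool.Agent.N805.JG.Stm

/-!
# Project JG: the sum rule
-/

set_option autoImplicit false

open MeasureTheory Filter Topology

namespace Pool.Agent.N564.JG

open Pool.Agent.N805.JG

variable {ι : Type} {L : Filter ι} {P Q : ι → Measure (ℕ → ℝ)}

theorem int_mono (hI : S_INT) (hP : Good L P) (I : Finset ℕ) (a : ℕ → ℕ) (j : ι) :
    Integrable (fun x : ℕ → ℝ => ∏ i ∈ I, x i ^ a i) (P j) := by
  refine Integrable.mono' ((hI hP I (I.sup a)).1 j) ?_ (ae_of_all _ fun x => ?_)
  · exact (Finset.measurable_prod I fun i _ =>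
      (measurable_pi_apply i).pow_const (a i)).aestronglyMeasurable
  · rw [Real.norm_eq_abs, Finset.abs_prod]
    refine Finset.prod_le_prod (fun i _ => abs_nonneg _) fun i hi => ?_
    rw [abs_pow]
    calc |x i| ^ a i ≤ (1 + |x i|) ^ a i :=
          pow_le_pow_left₀ (abs_nonneg _) (by linarith [abs_nonneg (x i)]) _
      _ ≤ (1 + |x i|) ^ (I.sup a) :=
          pow_le_pow_right₀ (by linarith [abs_nonneg (x i)]) (Finset.le_sup hi)

theorem int_poly (hI : S_INT) (hP : Good L P) (j : ι) (p : MvPolynomial ℕ ℝ) :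
    Integrable (fun x : ℕ → ℝ => MvPolynomial.eval x p) (P j) := by
  simp only [MvPolynomial.eval_eq]
  exact integrable_finsetSum _ fun d _ => (int_mono hI hP d.support d j).const_mul _

/-- the difference of the expectations of a polynomial -/
noncomputable def E (hI : S_INT) (hP : Good L P) (hQ : Good L Q) (j : ι) :
    MvPolynomial ℕ ℝ →ₗ[ℝ] ℝ where
  toFun p := D P Q j (fun x => MvPolynomial.eval x p)
  map_add' p q := by
    simp only [D, map_add]
    rw [integral_add (int_poly hI hP j p) (int_poly hI hP j q),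
      integral_add (int_poly hI hQ j p) (int_poly hI hQ j q)]
    ring
  map_smul' c p := by
    simp only [D, MvPolynomial.smul_eval, integral_const_mul, smul_eq_mul, RingHom.id_apply]
    ring

theorem E_apply (hI : S_INT) (hP : Good L P) (hQ : Good L Q) (j : ι) (p : MvPolynomial ℕ ℝ) :
    E hI hP hQ j p = D P Q j (fun x => MvPolynomial.eval x p) := rfl

theorem E_prod (hI : S_INT) (hP : Good L P) (hQ : Good L Q) (j : ι) (I : Finset ℕ) :
    E hI hP hQ j (∏ i ∈ I, MvPolynomial.X i) = D P Q j (fun x => ∏ i ∈ I, x i) := by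
  rw [E_apply]
  simp only [map_prod, MvPolynomial.eval_X]

theorem integral_poly (hI : S_INT) (hP : Good L P) (j : ι) (p : MvPolynomial ℕ ℝ) :
    ∫ x, ∑ d ∈ p.support, p.coeff d * ∏ i ∈ d.support, x i ^ d i ∂(P j) =
      ∑ d ∈ p.support, p.coeff d * ∫ x, ∏ i ∈ d.support, x i ^ d i ∂(P j) := by
  rw [integral_finsetSum]
  · simp only [integral_const_mul]
  · intro d _
    exact (int_mono hI hP d.support d j).const_mul _

theorem low_poly (hI : S_INT) (hP : Good L P) (hQ : Good L Q) {r : ℕ} (hlow : Low L P Q r)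
    (p : MvPolynomial ℕ ℝ) (hp : ∀ d ∈ p.support, d.support.card < r) :
    Tendsto (fun j => E hI hP hQ j p) L (𝓝 0) := by
  have h1 : ∀ j, E hI hP hQ j p =
      ∑ d ∈ p.support, p.coeff d * D P Q j (fun x => ∏ i ∈ d.support, x i ^ d i) := by
    intro j
    rw [E_apply]
    simp only [D, MvPolynomial.eval_eq]
    rw [integral_poly hI hP j p, integral_poly hI hQ j p, ← Finset.sum_sub_distrib]
    refine Finset.sum_congr rfl fun d _ => ?_
    rw [mul_sub]
  simp only [h1]
  have h2 : (0 : ℝ) = ∑ d ∈ p.support, p.coeff d * 0 := by simp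
  rw [h2]
  exact tendsto_finsetSum _ fun d hd => (hlow _ (hp d hd) d).const_mul _

/-- non-injective tuples are negligible -/
theorem noninj (hI : S_INT) (hP : Good L P) (hQ : Good L Q) {r : ℕ} (hlow : Low L P Q r)
    (t : Fin r → ℕ) (ht : ¬ Function.Injective t) :
    Tendsto (fun j => E hI hP hQ j (∏ l, (MvPolynomial.X (t l) - 1))) L (𝓝 0) := by
  apply low_poly hI hP hQ hlow
  intro d hd
  have h1 : d.support ⊆ Finset.univ.image t := by
    intro i hi
    have h2 : i ∈ (∏ l, (MvPolynomial.X (t l) - 1 : MvPolynomial ℕ ℝ)).vars :=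
      MvPolynomial.mem_vars_iff_mem_support i |>.mpr ⟨d, hd, hi⟩
    have h3 := MvPolynomial.vars_prod (fun l => (MvPolynomial.X (t l) - 1 : MvPolynomial ℕ ℝ)) h2
    rw [Finset.mem_biUnion] at h3
    obtain ⟨l, _, hl⟩ := h3
    have h4 := MvPolynomial.vars_sub_subset (MvPolynomial.X (t l)) (q := (1 : MvPolynomial ℕ ℝ)) hl
    rw [MvPolynomial.vars_X, MvPolynomial.vars_one, Finset.union_empty, Finset.mem_singleton] at h4
    rw [h4]
    exact Finset.mem_image_of_mem _ (Finset.mem_univ _)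
  refine lt_of_le_of_lt (Finset.card_le_card h1) ?_
  refine lt_of_le_of_ne (le_trans Finset.card_image_le (by simp)) ?_
  intro h5
  apply ht
  have h6 : (Finset.univ.image t).card = (Finset.univ : Finset (Fin r)).card := by
    rw [h5]; simp
  have h7 := Finset.card_image_iff.mp h6
  intro a b hab
  exact h7 (Finset.mem_coe.mpr (Finset.mem_univ a)) (Finset.mem_coe.mpr (Finset.mem_univ b)) hab

/-- for injective tuples only the leading term matters -/
theorem inj (hI : S_INT) (hP : Good L P) (hQ : Good L Q) {r : ℕ} (hlow : Low L P Q r)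
    (t : Fin r → ℕ) (ht : Function.Injective t) :
    Tendsto (fun j => E hI hP hQ j (∏ l, (MvPolynomial.X (t l) - 1)) -
      E hI hP hQ j (∏ l, MvPolynomial.X (t l))) L (𝓝 0) := by
  classical
  have h1 : ∀ j, E hI hP hQ j (∏ l, (MvPolynomial.X (t l) - 1)) -
      E hI hP hQ j (∏ l, MvPolynomial.X (t l)) =
      ∑ S ∈ (Finset.univ : Finset (Fin r)).powerset.erase Finset.univ,
        (-1 : ℝ) ^ (Finset.univ \ S).card * D P Q j (fun x => ∏ i ∈ S.image t, x i) := by
    intro j
    have h2 : (∏ l, (MvPolynomial.X (t l) - 1) : MvPolynomial ℕ ℝ) =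
        ∏ l, MvPolynomial.X (t l) +
        ∑ S ∈ (Finset.univ : Finset (Fin r)).powerset.erase Finset.univ,
        ((-1 : ℝ) ^ (Finset.univ \ S).card) • (∏ i ∈ S.image t, MvPolynomial.X i) := by
      simp only [sub_eq_add_neg]
      rw [Finset.prod_add, ← Finset.add_sum_erase _ _ (Finset.mem_powerset_self Finset.univ)]
      congr 1
      · simp
      · refine Finset.sum_congr rfl fun S _ => ?_
        rw [Finset.prod_const, Finset.prod_image (fun a _ b _ hab => ht hab),
          MvPolynomial.smul_eq_C_mul, mul_comm]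
        simp
    rw [h2, map_add, add_sub_cancel_left, map_sum]
    refine Finset.sum_congr rfl fun S _ => ?_
    rw [map_smul, smul_eq_mul, E_prod]
  simp only [h1]
  have h3 : (0 : ℝ) = ∑ S ∈ (Finset.univ : Finset (Fin r)).powerset.erase Finset.univ,
        (-1 : ℝ) ^ (Finset.univ \ S).card * 0 := by simp
  rw [h3]
  refine tendsto_finsetSum _ fun S hS => Tendsto.const_mul _ ?_
  have h4 : (S.image t).card < r := by
    refine lt_of_le_of_lt Finset.card_image_le ?_
    have h5 : S ⊂ Finset.univ := Finset.ssubset_univ_iff.mpr (Finset.ne_of_mem_erase hS)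
    have := Finset.card_lt_card h5
    simpa using this
  have h5 := hlow _ h4 (fun _ => 1)
  simpa using h5

/-- translations -/
theorem transl_aux {P : ι → Measure (ℕ → ℝ)} (hP : Good L P) (I : Finset ℕ) (u : ℕ) :
    Tendsto (fun j => ∫ x, ∏ i ∈ I, x (i + u) ∂(P j) - ∫ x, ∏ i ∈ I, x i ∂(P j)) L (𝓝 0) := by
  induction u with
  | zero =>
    simp only [Nat.add_zero, sub_self]
    exact tendsto_const_nhds
  | succ u ih =>
    have h1 := hP.stat (I.map (addRightEmbedding u))
    simp only [Finset.prod_map, addRightEmbedding_apply] at h1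
    have h2 := h1.add ih
    rw [add_zero] at h2
    refine h2.congr fun j => ?_
    have h3 : (fun x : ℕ → ℝ => ∏ i ∈ I, x (i + (u + 1))) = fun x => ∏ i ∈ I, x (i + u + 1) := rfl
    rw [h3]
    ring

theorem transl (hI : S_INT) (hP : Good L P) (hQ : Good L Q) (I : Finset ℕ) (u : ℕ) :
    Tendsto (fun j => E hI hP hQ j (∏ i ∈ I, MvPolynomial.X (i + u)) -
      E hI hP hQ j (∏ i ∈ I, MvPolynomial.X i)) L (𝓝 0) := by
  have h1 := (transl_aux hP I u).sub (transl_aux hQ I u)
  rw [sub_zero] at h1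
  refine h1.congr fun j => ?_
  rw [E_apply, E_apply]
  simp only [D, map_prod, MvPolynomial.eval_X]
  ring

theorem SUM : S_SUM := by
  intro hI ι L P Q hP hQ r hr hlow hle I hcard
  classical
  simp only [← E_prod hI hP hQ] at hle ⊢
  rw [Metric.tendsto_nhds]
  intro ε0 hε0
  obtain ⟨ε, hε, hεε0⟩ : ∃ ε : ℝ, 0 < ε ∧ ε < ε0 := ⟨ε0 / 2, by linarith, by linarith⟩
  obtain ⟨L0, hL0⟩ : ∃ L0 : ℕ, ∀ i ∈ I, i < L0 :=
    ⟨I.sup id + 1, fun i hi => Nat.lt_succ_of_le (Finset.le_sup (f := id) hi)⟩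
  obtain ⟨m1, hm1⟩ := hP.blk r (ε / 8) (by linarith)
  obtain ⟨m2, hm2⟩ := hQ.blk r (ε / 8) (by linarith)
  obtain ⟨m, hmm1, hmm2, hmL⟩ : ∃ m : ℕ, m1 ≤ m ∧ m2 ≤ m ∧ 2 * L0 ≤ m :=
    ⟨m1 + m2 + 2 * L0, by omega, by omega, by omega⟩
  obtain ⟨K, hK⟩ : ∃ K : ℕ, K + L0 = m + 1 := ⟨m + 1 - L0, by omega⟩
  let T : Finset (Fin r → ℕ) := Fintype.piFinset fun _ : Fin r => Finset.range m
  let g : (Fin r → ℕ) → MvPolynomial ℕ ℝ := fun t => ∏ l, (MvPolynomial.X (t l) - 1)
  let tu : ℕ → Fin r → ℕ := fun u l => I.orderEmbOfFin hcard l + u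
  let δ : ℝ := ε / (2 * (1 + (m : ℝ) ^ r))
  have hmr : (0 : ℝ) ≤ (m : ℝ) ^ r := by positivity
  have hδ : 0 < δ := by positivity
  have hδe : (1 + (m : ℝ) ^ r) * δ = ε / 2 := by
    simp only [δ]
    field_simp
  have hT : T.card = m ^ r := by
    simp [T]
  -- the power of the sum
  have hpow : ∀ j, E hI hP hQ j ((∑ i ∈ Finset.range m, (MvPolynomial.X i - 1)) ^ r) =
      ∑ t ∈ T, E hI hP hQ j (g t) := by
    intro j
    rw [← map_sum]
    congr 1
    have h1 := Finset.prod_univ_sum (ι := Fin r) (fun _ : Fin r => Finset.range m)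
      (fun (_ : Fin r) (i : ℕ) => (MvPolynomial.X i - 1 : MvPolynomial ℕ ℝ))
    rw [Finset.prod_const, Finset.card_univ, Fintype.card_fin] at h1
    exact h1
  -- each tuple
  have hsign : ∀ (a : ℝ), |(-1 : ℝ) ^ r * a| = |a| := by
    intro a
    rw [abs_mul, abs_pow, abs_neg, abs_one, one_pow, one_mul]
  have hA : ∀ t ∈ T, ∀ᶠ j in L, (-1 : ℝ) ^ r * E hI hP hQ j (g t) ≤ δ := by
    intro t _
    by_cases ht : Function.Injective t
    · have h1 := inj hI hP hQ hlow t ht
      rw [Metric.tendsto_nhds] at h1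
      have h2 := h1 (δ / 2) (by linarith)
      have h3 : (∏ l, MvPolynomial.X (t l) : MvPolynomial ℕ ℝ) =
          ∏ i ∈ Finset.univ.image t, MvPolynomial.X i := by
        rw [Finset.prod_image (fun a _ b _ hab => ht hab)]
      have h4 := hle (Finset.univ.image t) (by
        rw [Finset.card_image_of_injective _ ht, Finset.card_univ, Fintype.card_fin]) (δ / 2)
        (by linarith)
      rw [h3] at h2
      filter_upwards [h2, h4] with j h5 h6
      rw [Real.dist_eq, sub_zero, ← hsign, mul_sub] at h5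
      have := le_abs_self ((-1 : ℝ) ^ r * E hI hP hQ j (∏ l, (MvPolynomial.X (t l) - 1)) -
        (-1 : ℝ) ^ r * E hI hP hQ j (∏ i ∈ Finset.univ.image t, MvPolynomial.X i))
      show (-1 : ℝ) ^ r * E hI hP hQ j (∏ l, (MvPolynomial.X (t l) - 1)) ≤ δ
      linarith
    · have h1 := noninj hI hP hQ hlow t ht
      rw [Metric.tendsto_nhds] at h1
      filter_upwards [h1 δ hδ] with j h5
      rw [Real.dist_eq, sub_zero, ← hsign] at h5
      exact le_trans (le_abs_self _) h5.le
  have hB : ∀ u ∈ Finset.range K, ∀ᶠ j in L, (-1 : ℝ) ^ r * E hI hP hQ j (g (tu u)) ≤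
      (-1 : ℝ) ^ r * E hI hP hQ j (∏ i ∈ I, MvPolynomial.X i) + δ := by
    intro u _
    have hinj : Function.Injective (tu u) := by
      intro a b hab
      have : I.orderEmbOfFin hcard a = I.orderEmbOfFin hcard b := Nat.add_right_cancel hab
      exact (I.orderEmbOfFin hcard).injective this
    have h1 := inj hI hP hQ hlow (tu u) hinj
    have h2 := transl hI hP hQ I u
    have h3 : (∏ i ∈ I, MvPolynomial.X (i + u) : MvPolynomial ℕ ℝ) =
        ∏ l, MvPolynomial.X (tu u l) := by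
      conv_lhs => rw [← Finset.image_orderEmbOfFin_univ I hcard]
      rw [Finset.prod_image (fun a _ b _ hab => (I.orderEmbOfFin hcard).injective hab)]
    rw [h3] at h2
    have h4 := h1.add h2
    rw [add_zero, Metric.tendsto_nhds] at h4
    filter_upwards [h4 δ hδ] with j h5
    rw [Real.dist_eq, sub_zero, ← hsign] at h5
    have h6 := lt_of_le_of_lt (le_abs_self _) h5
    show (-1 : ℝ) ^ r * E hI hP hQ j (∏ l, (MvPolynomial.X (tu u l) - 1)) ≤ _
    have h7 : (-1 : ℝ) ^ r * (E hI hP hQ j (∏ l, (MvPolynomial.X (tu u l) - 1)) -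
        E hI hP hQ j (∏ l, MvPolynomial.X (tu u l)) + (E hI hP hQ j (∏ l, MvPolynomial.X (tu u l)) -
        E hI hP hQ j (∏ i ∈ I, MvPolynomial.X i))) =
        (-1 : ℝ) ^ r * E hI hP hQ j (∏ l, (MvPolynomial.X (tu u l) - 1)) -
        (-1 : ℝ) ^ r * E hI hP hQ j (∏ i ∈ I, MvPolynomial.X i) := by ring
    rw [h7] at h6
    linarith
  have hA' := (Filter.eventually_all_finset T).mpr hA
  have hB' := (Filter.eventually_all_finset (Finset.range K)).mpr hB
  have hC := hle I hcard ε hε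
  filter_upwards [hA', hB', hC, hm1 m hmm1, hm2 m hmm2] with j kA kB kC k1 k2
  rw [Real.dist_eq, sub_zero, ← hsign]
  refine lt_of_le_of_lt (abs_le.mpr ⟨?_, kC⟩) hεε0
  -- the lower bound
  set dI : ℝ := (-1 : ℝ) ^ r * E hI hP hQ j (∏ i ∈ I, MvPolynomial.X i) with hdI
  have htinj : Set.InjOn tu (Finset.range K : Set ℕ) := by
    intro u _ v _ huv
    have := congrFun huv ⟨0, hr⟩
    exact Nat.add_left_cancel this
  have hsub : (Finset.range K).image tu ⊆ T := by
    intro t ht
    rw [Finset.mem_image] at ht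
    obtain ⟨u, hu, rfl⟩ := ht
    rw [Finset.mem_range] at hu
    rw [Fintype.mem_piFinset]
    intro l
    rw [Finset.mem_range]
    have h1 := hL0 _ (Finset.orderEmbOfFin_mem I hcard l)
    show I.orderEmbOfFin hcard l + u < m
    omega
  have hupper : (-1 : ℝ) ^ r * E hI hP hQ j
      ((∑ i ∈ Finset.range m, (MvPolynomial.X i - 1)) ^ r) ≤
      K * (dI + δ) + (m : ℝ) ^ r * δ := by
    rw [hpow, Finset.mul_sum, ← Finset.sum_sdiff hsub, Finset.sum_image htinj, add_comm]
    refine add_le_add ?_ ?_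
    · calc _ ≤ ∑ _u ∈ Finset.range K, (dI + δ) := Finset.sum_le_sum fun u hu => kB u hu
        _ = K * (dI + δ) := by rw [Finset.sum_const, Finset.card_range, nsmul_eq_mul]
    · calc _ ≤ ∑ _t ∈ T \ (Finset.range K).image tu, δ :=
            Finset.sum_le_sum fun t ht => kA t (Finset.mem_sdiff.mp ht).1
        _ = ((T \ (Finset.range K).image tu).card : ℝ) * δ := by
            rw [Finset.sum_const, nsmul_eq_mul]
        _ ≤ (T.card : ℝ) * δ := by
            refine mul_le_mul_of_nonneg_right ?_ hδ.le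
            exact_mod_cast Finset.card_le_card Finset.sdiff_subset
        _ = (m : ℝ) ^ r * δ := by rw [hT]; push_cast; rfl
  have hlower : -(ε / 4 * m) ≤ (-1 : ℝ) ^ r * E hI hP hQ j
      ((∑ i ∈ Finset.range m, (MvPolynomial.X i - 1)) ^ r) := by
    have h1 : |(-1 : ℝ) ^ r * E hI hP hQ j
        ((∑ i ∈ Finset.range m, (MvPolynomial.X i - 1)) ^ r)| ≤ ε / 4 * m := by
      rw [hsign, E_apply]
      simp only [D, map_pow, map_sum, map_sub, MvPolynomial.eval_X, map_one]
      refine (abs_sub _ _).trans ?_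
      linarith
    exact (abs_le.mp h1).1
  have hK1 : (K : ℝ) + L0 = m + 1 := by exact_mod_cast hK
  have hmL' : 2 * (L0 : ℝ) ≤ m := by exact_mod_cast hmL
  have hm0 : (0 : ℝ) ≤ m := Nat.cast_nonneg m
  have hKm : (m : ℝ) ≤ 2 * K := by linarith
  have hK0 : (1 : ℝ) ≤ K := by linarith
  -- conclusion
  have h1 : -(ε / 4 * m) ≤ K * (dI + δ) + (m : ℝ) ^ r * δ := le_trans hlower hupper
  have h2 : (m : ℝ) ^ r * δ ≤ K * ((m : ℝ) ^ r * δ) :=
    le_mul_of_one_le_left (by positivity) hK0
  have h3 : ε / 4 * m ≤ K * (ε / 2) := by nlinarith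
  have h4 : 0 ≤ K * (dI + (1 + (m : ℝ) ^ r) * δ + ε / 2) := by nlinarith
  have h5 : 0 ≤ dI + (1 + (m : ℝ) ^ r) * δ + ε / 2 :=
    nonneg_of_mul_nonneg_right h4 (by linarith)
  rw [hδe] at h5
  linarith

end Pool.Agent.N564.JG
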